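import Pool.Agent.Y994.KW.Stm

/-!
# The walker of project KW: states, injectivity, every level is reached (KW-WALK)
-/

set_option autoImplicit false

namespace Pool.Agent.Y932.KW

open Y994.KW

/-- moving to the left -/
def lf (q t : ℤ) : St := ((q, t), (q, t + 1))

/-- moving to the right -/
def rt (q t : ℤ) : St := ((q, t + 1), (q, t))

theorem St_ext {s s' : St} (h1 : s.1.1 = s'.1.1) (h2 : s.1.2 = s'.1.2) (h3 : s.2.1 = s'.2.1)
    (h4 : s.2.2 = s'.2.2) : s = s' := Prod.ext (Prod.ext h1 h2) (Prod.ext h3 h4)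

theorem rev_up (q t : ℤ) : rev (up q t) = dn q t := rfl
theorem rev_dn (q t : ℤ) : rev (dn q t) = up q t := rfl
theorem rev_lf (q t : ℤ) : rev (lf q t) = rt q t := rfl
theorem rev_rt (q t : ℤ) : rev (rt q t) = lf q t := rfl
theorem rev_rev (s : St) : rev (rev s) = s := rfl

theorem rev_inj {s s' : St} (h : rev s = rev s') : s = s' := by
  have := congrArg rev h
  exact this

theorem tl_up (q t : ℤ) : tl (up q t) = (q, t) := by
  simp only [tl, up, rot, Prod.mk_sub_mk, Prod.mk.injEq]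
  constructor <;> omega

theorem tl_dn (q t : ℤ) : tl (dn q t) = (q, t - 1) := by
  simp only [tl, dn, rot, Prod.mk_sub_mk, Prod.mk.injEq]
  constructor <;> omega

theorem tl_lf (q t : ℤ) : tl (lf q t) = (q - 1, t) := by
  simp only [tl, lf, rot, Prod.mk_sub_mk, Prod.mk.injEq]
  constructor <;> omega

theorem tl_rt (q t : ℤ) : tl (rt q t) = (q, t) := by
  simp only [tl, rt, rot, Prod.mk_sub_mk, Prod.mk.injEq]
  constructor <;> omega

theorem nxt_up (σ : Cfg) (q t : ℤ) :
    nxt σ (up q t) = if σ q t = false then rt (q + 1) t else lf q t := by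
  have h : decide ((up q t).1.1 = (up q t).2.1) = false := by simp [up]
  unfold nxt
  rw [tl_up, h]
  congr 1
  · refine St_ext ?_ ?_ ?_ ?_ <;> simp only [up, rt, rot, Prod.fst_sub, Prod.snd_sub, Prod.fst_add,
      Prod.snd_add] <;> omega
  · refine St_ext ?_ ?_ ?_ ?_ <;> simp only [up, lf, rot, Prod.fst_sub, Prod.snd_sub, Prod.fst_add,
      Prod.snd_add] <;> omega

theorem nxt_dn (σ : Cfg) (q t : ℤ) :
    nxt σ (dn q t) = if σ q (t - 1) = false then lf q (t - 1) else rt (q + 1) (t - 1) := by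
  have h : decide ((dn q t).1.1 = (dn q t).2.1) = false := by simp [dn]
  unfold nxt
  rw [tl_dn, h]
  congr 1
  · refine St_ext ?_ ?_ ?_ ?_ <;> simp only [dn, lf, rot, Prod.fst_sub, Prod.snd_sub, Prod.fst_add,
      Prod.snd_add] <;> omega
  · refine St_ext ?_ ?_ ?_ ?_ <;> simp only [dn, rt, rot, Prod.fst_sub, Prod.snd_sub, Prod.fst_add,
      Prod.snd_add] <;> omega

theorem nxt_lf (σ : Cfg) (q t : ℤ) :
    nxt σ (lf q t) = if σ (q - 1) t = true then up (q - 1) (t + 1) else dn (q - 1) t := by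
  have h : decide ((lf q t).1.1 = (lf q t).2.1) = true := by simp [lf]
  unfold nxt
  rw [tl_lf, h]
  congr 1
  · refine St_ext ?_ ?_ ?_ ?_ <;> simp only [up, lf, rot, Prod.fst_sub, Prod.snd_sub, Prod.fst_add,
      Prod.snd_add] <;> omega
  · refine St_ext ?_ ?_ ?_ ?_ <;> simp only [dn, lf, rot, Prod.fst_sub, Prod.snd_sub, Prod.fst_add,
      Prod.snd_add] <;> omega

theorem nxt_rt (σ : Cfg) (q t : ℤ) :
    nxt σ (rt q t) = if σ q t = true then dn q t else up q (t + 1) := by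
  have h : decide ((rt q t).1.1 = (rt q t).2.1) = true := by simp [rt]
  unfold nxt
  rw [tl_rt, h]
  congr 1
  · refine St_ext ?_ ?_ ?_ ?_ <;> simp only [dn, rt, rot, Prod.fst_sub, Prod.snd_sub, Prod.fst_add,
      Prod.snd_add] <;> omega
  · refine St_ext ?_ ?_ ?_ ?_ <;> simp only [up, rt, rot, Prod.fst_sub, Prod.snd_sub, Prod.fst_add,
      Prod.snd_add] <;> omega

theorem Ok_up (q t : ℤ) : Ok (up q t) := ⟨q, t, Or.inl rfl⟩
theorem Ok_dn (q t : ℤ) : Ok (dn q t) := ⟨q, t, Or.inr (Or.inl rfl)⟩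
theorem Ok_lf (q t : ℤ) : Ok (lf q t) := ⟨q, t, Or.inr (Or.inr (Or.inl rfl))⟩
theorem Ok_rt (q t : ℤ) : Ok (rt q t) := ⟨q, t, Or.inr (Or.inr (Or.inr rfl))⟩

/-- case distinction -/
theorem Ok_cases {C : St → Prop} (h1 : ∀ q t, C (up q t)) (h2 : ∀ q t, C (dn q t))
    (h3 : ∀ q t, C (lf q t)) (h4 : ∀ q t, C (rt q t)) {s : St} (hs : Ok s) : C s := by
  obtain ⟨q, t, h | h | h | h⟩ := hs
  · rw [h]; exact h1 q t
  · rw [h]; exact h2 q t
  · rw [h]; exact h3 q t
  · rw [h]; exact h4 q t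

theorem Ok_rev {s : St} (hs : Ok s) : Ok (rev s) :=
  Ok_cases (C := fun s => Ok (rev s)) (fun q t => Ok_dn q t) (fun q t => Ok_up q t)
    (fun q t => Ok_rt q t) (fun q t => Ok_lf q t) hs

theorem Ok_nxt (σ : Cfg) {s : St} (hs : Ok s) : Ok (nxt σ s) := by
  refine Ok_cases (C := fun s => Ok (nxt σ s)) ?_ ?_ ?_ ?_ hs
  · intro q t
    rw [nxt_up]
    split_ifs
    · exact Ok_rt _ _
    · exact Ok_lf _ _
  · intro q t
    rw [nxt_dn]
    split_ifs
    · exact Ok_lf _ _
    · exact Ok_rt _ _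
  · intro q t
    rw [nxt_lf]
    split_ifs
    · exact Ok_up _ _
    · exact Ok_dn _ _
  · intro q t
    rw [nxt_rt]
    split_ifs
    · exact Ok_dn _ _
    · exact Ok_up _ _

/-- the reversal identity -/
theorem TT (σ : Cfg) {s : St} (hs : Ok s) : rev (nxt σ (rev (nxt σ s))) = s := by
  refine Ok_cases (C := fun s => rev (nxt σ (rev (nxt σ s))) = s) ?_ ?_ ?_ ?_ hs
  · intro q t
    rw [nxt_up]
    split_ifs with h
    · rw [rev_rt, nxt_lf, show q + 1 - 1 = q by ring, h]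
      rfl
    · rw [rev_lf, nxt_rt, if_pos (by simpa using h), rev_dn]
  · intro q t
    rw [nxt_dn]
    split_ifs with h
    · rw [rev_lf, nxt_rt, h]
      rw [if_neg (by simp), rev_up]
      rw [show t - 1 + 1 = t by ring]
    · rw [rev_rt, nxt_lf, show q + 1 - 1 = q by ring, if_pos (by simpa using h), rev_up,
        show t - 1 + 1 = t by ring]
  · intro q t
    rw [nxt_lf]
    split_ifs with h
    · rw [rev_up, nxt_dn, show t + 1 - 1 = t by ring, h, if_neg (by simp), rev_rt,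
        show q - 1 + 1 = q by ring]
    · rw [rev_dn, nxt_up, if_pos (by simpa using h), rev_rt, show q - 1 + 1 = q by ring]
  · intro q t
    rw [nxt_rt]
    split_ifs with h
    · rw [rev_dn, nxt_up, h, if_neg (by simp), rev_lf]
    · rw [rev_up, nxt_dn, show t + 1 - 1 = t by ring, if_pos (by simpa using h), rev_lf]

/-! ## translations -/

theorem sh_rev (z : ℤ) (s : St) : sh z (rev s) = rev (sh z s) := rfl

theorem sh_sh (z w : ℤ) (s : St) : sh z (sh w s) = sh (w + z) s := by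
  refine St_ext ?_ ?_ ?_ ?_ <;> simp only [sh] <;> omega

theorem sh_zero (s : St) : sh 0 s = s := by
  simp [sh]

theorem sh_up (z q t : ℤ) : sh z (up q t) = up (q + z) t := by
  refine St_ext ?_ ?_ ?_ ?_ <;> simp only [sh, up] <;> omega

theorem sh_dn (z q t : ℤ) : sh z (dn q t) = dn (q + z) t := by
  refine St_ext ?_ ?_ ?_ ?_ <;> simp only [sh, dn] <;> omega

theorem sh_lf (z q t : ℤ) : sh z (lf q t) = lf (q + z) t := rfl

theorem sh_rt (z q t : ℤ) : sh z (rt q t) = rt (q + z) t := rfl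

theorem Ok_sh (z : ℤ) {s : St} (hs : Ok s) : Ok (sh z s) :=
  Ok_cases (C := fun s => Ok (sh z s)) (fun q t => sh_up z q t ▸ Ok_up _ _)
    (fun q t => sh_dn z q t ▸ Ok_dn _ _) (fun q t => Ok_lf _ _) (fun q t => Ok_rt _ _) hs

theorem Per_mul {n : ℕ} {σ : Cfg} (h : Per n σ) (z j t : ℤ) : σ (j + (2 * n + 1) * z) t = σ j t := by
  have h1 : Function.Periodic (fun j => σ j t) (2 * n + 1 : ℤ) := fun j => h j t
  have h2 : σ (j + z * (2 * n + 1)) t = σ j t := (h1.int_mul z) j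
  rw [mul_comm (2 * (n : ℤ) + 1) z]
  exact h2

theorem nxt_sh {σ : Cfg} {z : ℤ} (h : ∀ j t, σ (j + z) t = σ j t) {s : St} (hs : Ok s) :
    nxt σ (sh z s) = sh z (nxt σ s) := by
  refine Ok_cases (C := fun s => nxt σ (sh z s) = sh z (nxt σ s)) ?_ ?_ ?_ ?_ hs
  · intro q t
    rw [sh_up, nxt_up, nxt_up, h]
    split_ifs
    · rw [sh_rt]
      congr 1
      ring
    · rw [sh_lf]
  · intro q t
    rw [sh_dn, nxt_dn, nxt_dn, h]
    split_ifs
    · rw [sh_lf]
    · rw [sh_rt]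
      congr 1
      ring
  · intro q t
    rw [sh_lf, nxt_lf, nxt_lf, show q + z - 1 = q - 1 + z by ring, h]
    split_ifs
    · rw [sh_up]
    · rw [sh_dn]
  · intro q t
    rw [sh_rt, nxt_rt, nxt_rt, h]
    split_ifs
    · rw [sh_dn]
    · rw [sh_up]

theorem nxt_inj (σ : Cfg) {s s' : St} (hs : Ok s) (hs' : Ok s') (h : nxt σ s = nxt σ s') : s = s' := by
  rw [← TT σ hs, ← TT σ hs', h]

/-! ## shapes -/

theorem ne_sh_rev {n : ℕ} {s : St} (hs : Ok s) (z : ℤ) : s ≠ sh ((2 * n + 1) * z) (rev s) := by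
  generalize hw : (2 * n + 1 : ℤ) * z = w
  clear hw
  refine Ok_cases (C := fun s => s ≠ sh w (rev s)) ?_ ?_ ?_ ?_ hs
  · intro q t h
    rw [rev_up, sh_dn] at h
    simp only [up, dn, Prod.mk.injEq] at h
    omega
  · intro q t h
    rw [rev_dn, sh_up] at h
    simp only [up, dn, Prod.mk.injEq] at h
    omega
  · intro q t h
    rw [rev_lf, sh_rt] at h
    simp only [lf, rt, Prod.mk.injEq] at h
    omega
  · intro q t h
    rw [rev_rt, sh_lf] at h
    simp only [lf, rt, Prod.mk.injEq] at h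
    omega

/-- a multiple of `2 n + 1` which is at most one in absolute value is zero -/
theorem mul_small {n : ℕ} (hn : 1 ≤ n) {z : ℤ} (h1 : (2 * n + 1 : ℤ) * z ≤ 1)
    (h2 : -1 ≤ (2 * n + 1 : ℤ) * z) : (2 * n + 1 : ℤ) * z = 0 := by
  have hn' : (1 : ℤ) ≤ n := by exact_mod_cast hn
  rcases lt_trichotomy z 0 with h | h | h
  · nlinarith
  · rw [h]; ring
  · nlinarith

/-- a state which shares a corner with `s` is not a translate of the reverse of `s` -/
theorem ne_sh_rev' {n : ℕ} (hn : 1 ≤ n) {s s' : St} (hs : Ok s) (h : s'.1 = s.1 ∨ s'.2 = s.2) (z : ℤ) :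
    s' ≠ sh ((2 * n + 1) * z) (rev s) := by
  intro h'
  have hm := @mul_small n hn z
  have key : s.1.1 = s.2.1 + (2 * n + 1) * z ∧ s.1.2 = s.2.2 ∨
      s.2.1 = s.1.1 + (2 * n + 1) * z ∧ s.2.2 = s.1.2 := by
    rcases h with h | h
    · left
      have h1 := congrArg Prod.fst h'
      rw [h] at h1
      exact ⟨(Prod.ext_iff.1 h1).1, (Prod.ext_iff.1 h1).2⟩
    · right
      have h1 := congrArg Prod.snd h'
      rw [h] at h1
      exact ⟨(Prod.ext_iff.1 h1).1, (Prod.ext_iff.1 h1).2⟩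
  generalize (2 * n + 1 : ℤ) * z = w at *
  revert key
  refine Ok_cases (C := fun s => s.1.1 = s.2.1 + w ∧ s.1.2 = s.2.2 ∨
      s.2.1 = s.1.1 + w ∧ s.2.2 = s.1.2 → False) ?_ ?_ ?_ ?_ hs
  · intro q t h
    simp only [up] at h
    omega
  · intro q t h
    simp only [dn] at h
    omega
  · intro q t h
    simp only [lf] at h
    omega
  · intro q t h
    simp only [rt] at h
    omega

theorem nxt_share (σ : Cfg) (s : St) : (nxt σ s).1 = s.1 ∨ (nxt σ s).2 = s.2 := by
  unfold nxt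
  split_ifs
  · right; rfl
  · left; rfl

/-! ## the walker on the cylinder -/

/-- the cap step -/
def Cap (a : ℤ) (s : St) : Prop := s.1.2 = a ∧ s.2.2 = a ∧ s.1.1 = s.2.1 + 1

theorem wk_of_not {n : ℕ} {a : ℤ} {σ : Cfg} {s : St} (h : ¬ Cap a s) : wk n a σ s = nxt σ s := by
  unfold wk
  exact if_neg h

theorem wk_dn (n : ℕ) (a : ℤ) (σ : Cfg) (q : ℤ) :
    wk n a σ (dn q a) = if (q % (2 * n + 1)) % 2 = 0 then up (q + 1) a else up (q - 1) a := by
  unfold wk
  rw [if_pos ⟨rfl, rfl, rfl⟩]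
  congr 1
  · refine St_ext ?_ ?_ ?_ ?_ <;> simp only [up, dn] <;> omega
  · refine St_ext ?_ ?_ ?_ ?_ <;> simp only [up, dn] <;> omega

theorem Cap_up (a q t : ℤ) : ¬ Cap a (up q t) := by
  rintro ⟨_, _, h⟩
  change q = q + 1 + 1 at h
  omega

theorem Cap_lf (a q t : ℤ) : ¬ Cap a (lf q t) := by
  rintro ⟨h1, h2, _⟩
  change t = a at h1
  change t + 1 = a at h2
  omega

theorem Cap_rt (a q t : ℤ) : ¬ Cap a (rt q t) := by
  rintro ⟨h1, h2, _⟩
  change t + 1 = a at h1
  change t = a at h2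
  omega

theorem Cap_dn' {a q t : ℤ} (h : t ≠ a) : ¬ Cap a (dn q t) := fun h' => h h'.1

theorem Cap_dn {a : ℤ} {s : St} (h : Cap a s) : s = dn s.2.1 a := by
  obtain ⟨h1, h2, h3⟩ := h
  ext
  · simpa [dn] using h3
  · simpa [dn] using h1
  · simp [dn]
  · simpa [dn] using h2

/-- neighbouring corners, levels at least `a` -/
def V (a : ℤ) (s : St) : Prop := Ok s ∧ a ≤ s.1.2 ∧ a ≤ s.2.2

theorem V_rev {a : ℤ} {s : St} (h : V a s) : V a (rev s) := ⟨Ok_rev h.1, h.2.2, h.2.1⟩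

theorem V_sh {a : ℤ} {s : St} (z : ℤ) (h : V a s) : V a (sh z s) := ⟨Ok_sh z h.1, h.2.1, h.2.2⟩

theorem wk_share (n : ℕ) (a : ℤ) (σ : Cfg) (s : St) : (wk n a σ s).1 = s.1 ∨ (wk n a σ s).2 = s.2 := by
  by_cases h : Cap a s
  · unfold wk
    rw [if_pos (show s.1.2 = a ∧ s.2.2 = a ∧ s.1.1 = s.2.1 + 1 from h)]
    split_ifs
    · left; rfl
    · right; rfl
  · rw [wk_of_not h]
    exact nxt_share σ s

/-- the tile steps -/
theorem nxt_V {a : ℤ} {σ : Cfg} {s : St} (h : V a s) (hc : ¬ Cap a s) :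
    V a (nxt σ s) ∧ ¬ Cap a (rev (nxt σ s)) := by
  obtain ⟨hs, h1, h2⟩ := h
  revert h1 h2 hc
  refine Ok_cases (C := fun s => ¬ Cap a s → a ≤ s.1.2 → a ≤ s.2.2 →
    V a (nxt σ s) ∧ ¬ Cap a (rev (nxt σ s))) ?_ ?_ ?_ ?_ hs
  · intro q t _ h1 h2
    rw [nxt_up]
    change a ≤ t at h1
    split_ifs
    · refine ⟨⟨Ok_rt _ _, ?_⟩, Cap_lf _ _ _⟩
      change a ≤ t + 1 ∧ a ≤ t
      omega
    · refine ⟨⟨Ok_lf _ _, ?_⟩, Cap_rt _ _ _⟩
      change a ≤ t ∧ a ≤ t + 1
      omega
  · intro q t h0 h1 h2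
    rw [nxt_dn]
    change a ≤ t at h1
    have h3 : t ≠ a := fun h => h0 ⟨h, h, rfl⟩
    split_ifs
    · refine ⟨⟨Ok_lf _ _, ?_⟩, Cap_rt _ _ _⟩
      change a ≤ t - 1 ∧ a ≤ t - 1 + 1
      omega
    · refine ⟨⟨Ok_rt _ _, ?_⟩, Cap_lf _ _ _⟩
      change a ≤ t - 1 + 1 ∧ a ≤ t - 1
      omega
  · intro q t h0 h1 h2
    rw [nxt_lf]
    change a ≤ t at h1
    split_ifs
    · refine ⟨⟨Ok_up _ _, ?_⟩, Cap_dn' (by omega)⟩
      change a ≤ t + 1 ∧ a ≤ t + 1
      omega
    · exact ⟨⟨Ok_dn _ _, h1, h1⟩, Cap_up _ _ _⟩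
  · intro q t h0 h1 h2
    rw [nxt_rt]
    change a ≤ t at h2
    split_ifs
    · exact ⟨⟨Ok_dn _ _, h2, h2⟩, Cap_up _ _ _⟩
    · refine ⟨⟨Ok_up _ _, ?_⟩, Cap_dn' (by omega)⟩
      change a ≤ t + 1 ∧ a ≤ t + 1
      omega

theorem wk_V {n : ℕ} {a : ℤ} {σ : Cfg} {s : St} (h : V a s) : V a (wk n a σ s) := by
  by_cases hc : Cap a s
  · rw [Cap_dn hc, wk_dn]
    split_ifs
    · exact ⟨Ok_up _ _, le_refl a, le_refl a⟩
    · exact ⟨Ok_up _ _, le_refl a, le_refl a⟩
  · rw [wk_of_not hc]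
    exact (nxt_V h hc).1

theorem wk_sh {n : ℕ} {a : ℤ} {σ : Cfg} (hp : Per n σ) (z : ℤ) {s : St} (hs : Ok s) :
    wk n a σ (sh ((2 * n + 1) * z) s) = sh ((2 * n + 1) * z) (wk n a σ s) := by
  by_cases hc : Cap a s
  · rw [Cap_dn hc, sh_dn, wk_dn, wk_dn, Int.add_mul_emod_self_left]
    split_ifs
    · rw [sh_up]
      congr 1
      ring
    · rw [sh_up]
      congr 1
      ring
  · have hc' : ¬ Cap a (sh ((2 * n + 1) * z) s) := by
      intro h
      obtain ⟨h1, h2, h3⟩ := h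
      simp only [sh] at h1 h2 h3
      exact hc ⟨h1, h2, by linarith⟩
    rw [wk_of_not hc, wk_of_not hc']
    exact nxt_sh (fun j t => Per_mul hp z j t) hs

/-- terminal states -/
def Tm (n : ℕ) (a : ℤ) (s : St) : Prop := ∃ z : ℤ, s = dn (2 * n + (2 * n + 1) * z) a

theorem not_Tm {n : ℕ} {a : ℤ} {q : ℤ} (h : ¬ Tm n a (dn q a)) :
    0 ≤ q % (2 * n + 1) ∧ q % (2 * n + 1) < 2 * n := by
  have h1 := Int.emod_nonneg q (show (2 * n + 1 : ℤ) ≠ 0 by omega)
  have h2 := Int.emod_lt_of_pos q (show (0 : ℤ) < 2 * n + 1 by omega)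
  refine ⟨h1, ?_⟩
  by_contra h3
  have h4 : q % (2 * n + 1) = 2 * n := by omega
  refine h ⟨q / (2 * n + 1), ?_⟩
  congr 1
  have h5 := Int.emod_add_mul_ediv q (2 * n + 1)
  rw [h4] at h5
  exact h5.symm

theorem emod_succ {n : ℕ} {q : ℤ} (h1 : 0 ≤ q % (2 * n + 1)) (h2 : q % (2 * n + 1) < 2 * n) :
    (q + 1) % (2 * n + 1) = q % (2 * n + 1) + 1 := by
  have h5 := Int.emod_add_mul_ediv q (2 * n + 1)
  have h6 : q + 1 = (q % (2 * n + 1) + 1) + (2 * n + 1) * (q / (2 * n + 1)) := by linarith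
  rw [h6, Int.add_mul_emod_self_left]
  exact Int.emod_eq_of_lt (by omega) (by omega)

theorem emod_pred {n : ℕ} {q : ℤ} (h1 : 0 < q % (2 * n + 1)) (h2 : q % (2 * n + 1) < 2 * n + 1) :
    (q - 1) % (2 * n + 1) = q % (2 * n + 1) - 1 := by
  have h5 := Int.emod_add_mul_ediv q (2 * n + 1)
  have h6 : q - 1 = (q % (2 * n + 1) - 1) + (2 * n + 1) * (q / (2 * n + 1)) := by linarith
  rw [h6, Int.add_mul_emod_self_left]
  exact Int.emod_eq_of_lt (by omega) (by omega)

/-- the reversal identity on the cylinder -/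
theorem WW {n : ℕ} {a : ℤ} {σ : Cfg} {s : St} (h : V a s) (ht : ¬ Tm n a s) :
    rev (wk n a σ (rev (wk n a σ s))) = s := by
  by_cases hc : Cap a s
  · have hd := Cap_dn hc
    generalize s.2.1 = q at hd
    subst hd
    obtain ⟨h1, h2⟩ := not_Tm ht
    rw [wk_dn]
    split_ifs with h3
    · rw [rev_up, wk_dn, emod_succ h1 h2, if_neg (by omega), rev_up]
      congr 1
      ring
    · rw [rev_up, wk_dn, emod_pred (by omega) (by omega), if_pos (by omega), rev_up]
      congr 1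
      ring
  · obtain ⟨_, h2⟩ := nxt_V (σ := σ) h hc
    rw [wk_of_not hc, wk_of_not h2]
    exact TT σ h.1

theorem wk_inj {n : ℕ} {a : ℤ} {σ : Cfg} {s s' : St} (h : V a s) (h' : V a s') (ht : ¬ Tm n a s)
    (ht' : ¬ Tm n a s') (he : wk n a σ s = wk n a σ s') : s = s' := by
  rw [← WW (σ := σ) h ht, ← WW (σ := σ) h' ht', he]

theorem Tm_sh {n : ℕ} {a : ℤ} {s : St} (z : ℤ) (h : ¬ Tm n a s) : ¬ Tm n a (sh ((2 * n + 1) * z) s) := by
  rintro ⟨w, hw⟩
  refine h ⟨w - z, ?_⟩
  have h1 : sh ((2 * n + 1) * (-z)) (sh ((2 * n + 1) * z) s) = s := by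
    rw [sh_sh, show (2 * n + 1 : ℤ) * z + (2 * n + 1) * (-z) = 0 by ring, sh_zero]
  rw [← h1, hw, sh_dn]
  congr 1
  ring

/-- a step of a state which is not terminal does not reach a starting state -/
theorem wk_ne_start {n : ℕ} {a : ℤ} {σ : Cfg} {s : St} (h : V a s) (ht : ¬ Tm n a s) (z : ℤ) :
    wk n a σ s ≠ up (2 * n + (2 * n + 1) * z) a := by
  intro he
  by_cases hc : Cap a s
  · have hd := Cap_dn hc
    generalize s.2.1 = q at hd
    subst hd
    obtain ⟨h1, h2⟩ := not_Tm ht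
    have h4 : (2 * (n : ℤ) + (2 * n + 1) * z) % (2 * n + 1) = 2 * n := by
      rw [Int.add_mul_emod_self_left]
      exact Int.emod_eq_of_lt (by omega) (by omega)
    rw [wk_dn] at he
    split_ifs at he with h3
    · have h5 : q + 1 = 2 * n + (2 * n + 1) * z := by
        simpa [up] using congrArg (fun s : St => s.1.1) he
      rw [← h5, emod_succ h1 h2] at h4
      omega
    · have h5 : q - 1 = 2 * n + (2 * n + 1) * z := by
        simpa [up] using congrArg (fun s : St => s.1.1) he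
      rw [← h5, emod_pred (by omega) (by omega)] at h4
      omega
  · obtain ⟨_, h2⟩ := nxt_V (σ := σ) h hc
    rw [wk_of_not hc] at he
    rw [he] at h2
    exact h2 ⟨rfl, rfl, rfl⟩

theorem orb_succ (n : ℕ) (a : ℤ) (σ : Cfg) (i : ℕ) : orb n a σ (i + 1) = wk n a σ (orb n a σ i) := by
  unfold orb
  rw [Function.iterate_succ_apply']

theorem orb_V (n : ℕ) (a : ℤ) (σ : Cfg) (i : ℕ) : V a (orb n a σ i) := by
  induction i with
  | zero => exact ⟨Ok_up _ _, le_refl a, le_refl a⟩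
  | succ i ih =>
    rw [orb_succ]
    exact wk_V ih

/-- parities -/
theorem nxt_par {a : ℤ} {σ : Cfg} {s : St} (hs : Ok s) (h : Pty a s.1 ∧ Pty (a + 1) s.2) :
    Pty a (nxt σ s).1 ∧ Pty (a + 1) (nxt σ s).2 := by
  revert h
  refine Ok_cases (C := fun s => Pty a s.1 ∧ Pty (a + 1) s.2 →
    Pty a (nxt σ s).1 ∧ Pty (a + 1) (nxt σ s).2) ?_ ?_ ?_ ?_ hs
  · rintro q t ⟨h1, h2⟩
    rw [nxt_up]
    simp only [Pty, up] at h1 h2
    split_ifs
    · simp only [Pty, rt]
      omega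
    · simp only [Pty, lf]
      omega
  · rintro q t ⟨h1, h2⟩
    rw [nxt_dn]
    simp only [Pty, dn] at h1 h2
    split_ifs
    · simp only [Pty, lf]
      omega
    · simp only [Pty, rt]
      omega
  · rintro q t ⟨h1, h2⟩
    rw [nxt_lf]
    simp only [Pty, lf] at h1 h2
    split_ifs
    · simp only [Pty, up]
      omega
    · simp only [Pty, dn]
      omega
  · rintro q t ⟨h1, h2⟩
    rw [nxt_rt]
    simp only [Pty, rt] at h1 h2
    split_ifs
    · simp only [Pty, dn]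
      omega
    · simp only [Pty, up]
      omega

theorem wk_par {n : ℕ} {a : ℤ} {σ : Cfg} {s : St} (hs : Ok s) (h : Pty a s.1 ∧ Pty (a + 1) s.2) :
    Pty a (wk n a σ s).1 ∧ Pty (a + 1) (wk n a σ s).2 := by
  by_cases hc : Cap a s
  · have hd := Cap_dn hc
    generalize s.2.1 = q at hd
    subst hd
    obtain ⟨h1, h2⟩ := h
    rw [wk_dn]
    simp only [Pty, dn] at h1 h2
    split_ifs
    · simp only [Pty, up]
      omega
    · simp only [Pty, up]
      omega
  · rw [wk_of_not hc]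
    exact nxt_par hs h

/-- **VAL** -/
theorem t_VAL : S_VAL := by
  intro n a σ i _ _
  have h1 := orb_V n a σ i
  have h2 : Pty a (orb n a σ i).1 ∧ Pty (a + 1) (orb n a σ i).2 := by
    induction i with
    | zero =>
      simp only [orb, Function.iterate_zero, id, Pty, up]
      omega
    | succ i ih =>
      rw [orb_succ]
      exact wk_par (orb_V n a σ i).1 (ih (orb_V n a σ i))
  exact ⟨h1.1, h1.2.1, h1.2.2, h2.1, h2.2⟩

/-- the statement for the pairs with largest index `k` -/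
theorem inj_aux {n : ℕ} {a : ℤ} {σ : Cfg} (hn : 1 ≤ n) (hp : Per n σ) (k : ℕ) :
    ∀ i ≤ k, ∀ z : ℤ, (i ≠ k → orb n a σ k ≠ sh ((2 * n + 1) * z) (orb n a σ i)) ∧
      orb n a σ k ≠ sh ((2 * n + 1) * z) (rev (orb n a σ i)) := by
  induction k using Nat.strong_induction_on with
  | _ k ih =>
    have nT : ∀ j < k, ¬ Tm n a (orb n a σ j) := by
      rintro j hj ⟨z, hz⟩
      refine (ih j hj 0 (Nat.zero_le j) z).2 ?_
      rw [hz]
      change _ = sh ((2 * n + 1) * z) (dn (2 * n) a)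
      rw [sh_dn]
    rcases k with _ | K
    · intro i hi z
      have hi0 : i = 0 := by omega
      subst hi0
      exact ⟨fun h => absurd rfl h, ne_sh_rev (Ok_up _ _) z⟩
    · have hK := nT K (Nat.lt_succ_self K)
      have hVK := orb_V n a σ K
      intro i hi z
      refine ⟨fun hne he => ?_, fun he => ?_⟩
      · rw [orb_succ] at he
        rcases i with _ | i
        · change _ = sh ((2 * n + 1) * z) (up (2 * n) a) at he
          rw [sh_up] at he
          exact wk_ne_start hVK hK z he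
        · rw [orb_succ, ← wk_sh hp z (orb_V n a σ i).1] at he
          have h1 := wk_inj hVK (V_sh _ (orb_V n a σ i)) hK (Tm_sh z (nT i (by omega))) he
          exact (ih K (Nat.lt_succ_self K) i (by omega) z).1 (by omega) h1
      · rcases Nat.lt_or_ge K i with h | h
        · have hiK : i = K + 1 := by omega
          subst hiK
          exact ne_sh_rev (orb_V n a σ (K + 1)).1 z he
        · rcases h.lt_or_eq with h | h
          · rw [orb_succ] at he
            have h1 := WW (σ := σ) hVK hK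
            rw [he, ← sh_rev, rev_rev, wk_sh hp z (orb_V n a σ i).1, ← orb_succ, ← sh_rev] at h1
            exact (ih K (Nat.lt_succ_self K) (i + 1) (by omega) z).2 h1.symm
          · subst h
            rw [orb_succ] at he
            exact ne_sh_rev' hn hVK.1 (wk_share n a σ _) z he

theorem sh_neg_iff {s s' : St} {w : ℤ} (h : s = sh w s') : s' = sh (-w) s := by
  rw [h, sh_sh, add_neg_cancel, sh_zero]

/-- **INJ** -/
theorem t_INJ : S_INJ := by
  intro n a σ hn hp i k z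
  rcases le_total i k with h | h
  · exact inj_aux hn hp k i h z
  · have h1 := inj_aux (a := a) hn hp i k h (-z)
    refine ⟨fun hne he => h1.1 (Ne.symm hne) ?_, fun he => h1.2 ?_⟩
    · rw [mul_neg]
      exact sh_neg_iff he
    · have h2 := sh_neg_iff he
      rw [mul_neg, sh_rev, ← h2, rev_rev]

theorem it_Ok (σ : Cfg) {s : St} (hs : Ok s) (i : ℕ) : Ok ((nxt σ)^[i] s) := by
  induction i with
  | zero => exact hs
  | succ i ih =>
    rw [Function.iterate_succ_apply']
    exact Ok_nxt σ ih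

/-- strands do not meet the translates of their reverses -/
theorem rev_aux {n : ℕ} {σ : Cfg} (hn : 1 ≤ n) (hp : Per n σ) {s : St} (hs : Ok s) (z : ℤ) (d : ℕ) :
    ∀ i k : ℕ, k = i + d → (nxt σ)^[k] s ≠ sh ((2 * n + 1) * z) (rev ((nxt σ)^[i] s)) := by
  induction d using Nat.strong_induction_on with
  | _ d ih =>
    intro i k hk he
    rcases d with _ | _ | d
    · have hik : k = i := by omega
      subst hik
      exact ne_sh_rev (it_Ok σ hs k) z he
    · have hik : k = i + 1 := by omega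
      subst hik
      rw [Function.iterate_succ_apply'] at he
      exact ne_sh_rev' hn (it_Ok σ hs i) (nxt_share σ _) z he
    · obtain ⟨k, rfl⟩ : ∃ k', k = k' + 1 := ⟨k - 1, by omega⟩
      rw [Function.iterate_succ_apply'] at he
      have h1 := TT σ (it_Ok σ hs k)
      rw [he, ← sh_rev, rev_rev, nxt_sh (fun j t => Per_mul hp z j t) (it_Ok σ hs i),
        ← Function.iterate_succ_apply' (nxt σ), ← sh_rev] at h1
      exact ih d (by omega) (i + 1) k (by omega) h1.symm

/-- **INJT** -/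
theorem t_INJT : S_INJT := by
  intro n σ u v p q m hn hp hm hend hin
  have hs : Ok (up p u) := Ok_up _ _
  -- the first step
  have hm2 : 2 ≤ m := by
    by_contra h
    have hm1 : m = 1 := by omega
    subst hm1
    rw [Function.iterate_one, nxt_up] at hend
    split_ifs at hend
    · simp only [rt, up, Prod.mk.injEq] at hend
      omega
    · simp only [lf, up, Prod.mk.injEq] at hend
      omega
  have huv : u < v := by
    have h := hin 1 one_pos (by omega)
    unfold Inn at h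
    omega
  have key : ∀ (z : ℤ) (i d : ℕ), 0 < d → i + d ≤ m →
      (nxt σ)^[i + d] (up p u) ≠ sh ((2 * n + 1) * z) ((nxt σ)^[i] (up p u)) := by
    intro z i
    induction i with
    | zero =>
      intro d hd hdm he
      rw [Nat.zero_add] at he hdm
      rw [Function.iterate_zero, id, sh_up] at he
      rcases hdm.lt_or_eq with h | h
      · have h1 := hin d hd h
        rw [he] at h1
        simp only [Inn, up] at h1
        omega
      · subst h
        rw [hend] at he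
        simp only [up, Prod.mk.injEq] at he
        omega
    | succ i ih =>
      intro d hd hdm he
      rw [show i + 1 + d = (i + d) + 1 by ring, Function.iterate_succ_apply',
        Function.iterate_succ_apply', ← nxt_sh (fun j t => Per_mul hp z j t) (it_Ok σ hs i)] at he
      exact ih d hd (by omega) (nxt_inj σ (it_Ok σ hs _) (Ok_sh _ (it_Ok σ hs _)) he)
  intro i k z hi hk
  refine ⟨fun hne he => ?_, fun he => ?_⟩
  · rcases lt_or_gt_of_ne hne with h | h
    · obtain ⟨d, rfl⟩ : ∃ d, k = i + d := ⟨k - i, by omega⟩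
      exact key z i d (by omega) hk he
    · obtain ⟨d, rfl⟩ : ∃ d, i = k + d := ⟨i - k, by omega⟩
      refine key (-z) k d (by omega) hi ?_
      rw [mul_neg]
      exact sh_neg_iff he
  · rcases le_total i k with h | h
    · obtain ⟨d, rfl⟩ : ∃ d, k = i + d := ⟨k - i, by omega⟩
      exact rev_aux hn hp hs z d i _ rfl he
    · obtain ⟨d, rfl⟩ : ∃ d, i = k + d := ⟨i - k, by omega⟩
      refine rev_aux hn hp hs (-z) d k _ rfl ?_
      have h2 := sh_neg_iff he
      rw [mul_neg, sh_rev, ← h2, rev_rev]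

/-- the walker stays below the level `b` as long as it does not cross it upwards -/
theorem wk_le {n : ℕ} {a b : ℤ} {σ : Cfg} {s : St} (h : V a s) (hab : a ≤ b) (h1 : s.1.2 ≤ b)
    (h2 : s.2.2 ≤ b) (hu : ∀ q, s ≠ up q b) : (wk n a σ s).1.2 ≤ b ∧ (wk n a σ s).2.2 ≤ b := by
  by_cases hc : Cap a s
  · rw [Cap_dn hc, wk_dn]
    split_ifs
    · exact ⟨hab, hab⟩
    · exact ⟨hab, hab⟩
  · rw [wk_of_not hc]
    obtain ⟨hs, -, -⟩ := h
    revert h1 h2 hu
    refine Ok_cases (C := fun s => s.1.2 ≤ b → s.2.2 ≤ b → (∀ q, s ≠ up q b) →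
      (nxt σ s).1.2 ≤ b ∧ (nxt σ s).2.2 ≤ b) ?_ ?_ ?_ ?_ hs
    · intro q t h1 h2 hu
      simp only [up] at h1
      have h3 : t ≠ b := by
        intro h
        exact hu q (by rw [h])
      rw [nxt_up]
      split_ifs
      · simp only [rt]; omega
      · simp only [lf]; omega
    · intro q t h1 h2 hu
      simp only [dn] at h1
      rw [nxt_dn]
      split_ifs
      · simp only [lf]; omega
      · simp only [rt]; omega
    · intro q t h1 h2 hu
      simp only [lf] at h1 h2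
      rw [nxt_lf]
      split_ifs
      · simp only [up]; omega
      · simp only [dn]; omega
    · intro q t h1 h2 hu
      simp only [rt] at h1 h2
      rw [nxt_rt]
      split_ifs
      · simp only [dn]; omega
      · simp only [up]; omega

theorem Ok_diff {s : St} (hs : Ok s) : -1 ≤ s.2.1 - s.1.1 ∧ s.2.1 - s.1.1 ≤ 1 ∧
    -1 ≤ s.2.2 - s.1.2 ∧ s.2.2 - s.1.2 ≤ 1 := by
  refine Ok_cases (C := fun s => -1 ≤ s.2.1 - s.1.1 ∧ s.2.1 - s.1.1 ≤ 1 ∧
    -1 ≤ s.2.2 - s.1.2 ∧ s.2.2 - s.1.2 ≤ 1) ?_ ?_ ?_ ?_ hs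
  · intro q t; simp only [up]; omega
  · intro q t; simp only [dn]; omega
  · intro q t; simp only [lf]; omega
  · intro q t; simp only [rt]; omega

/-- **HIT** -/
theorem t_HIT : S_HIT := by
  intro n a b σ hn hp hab
  have hex : ∃ i : ℕ, ∃ q : ℤ, orb n a σ i = up q b := by
    by_contra hno
    push Not at hno
    have hle : ∀ i, (orb n a σ i).1.2 ≤ b ∧ (orb n a σ i).2.2 ≤ b := by
      intro i
      induction i with
      | zero => exact ⟨hab, hab⟩
      | succ i ih =>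
        rw [orb_succ]
        exact wk_le (orb_V n a σ i) hab ih.1 ih.2 (hno i)
    set g : ℕ → (ℤ × ℤ) × (ℤ × ℤ) := fun i =>
      (((orb n a σ i).1.1 % (2 * n + 1), (orb n a σ i).1.2),
        ((orb n a σ i).2.1 - (orb n a σ i).1.1, (orb n a σ i).2.2 - (orb n a σ i).1.2)) with hg
    have hfin : (Set.range g).Finite := by
      refine Set.Finite.subset (Finset.finite_toSet ((Finset.Icc 0 (2 * n : ℤ) ×ˢ Finset.Icc a b) ×ˢ
        (Finset.Icc (-1 : ℤ) 1 ×ˢ Finset.Icc (-1 : ℤ) 1))) ?_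
      rintro _ ⟨i, rfl⟩
      have h1 := Int.emod_nonneg (orb n a σ i).1.1 (show (2 * n + 1 : ℤ) ≠ 0 by omega)
      have h2 := Int.emod_lt_of_pos (orb n a σ i).1.1 (show (0 : ℤ) < 2 * n + 1 by omega)
      obtain ⟨h3, h4, h5, h6⟩ := Ok_diff (orb_V n a σ i).1
      simp only [hg, Finset.coe_product, Finset.coe_Icc, Set.mem_prod, Set.mem_Icc]
      exact ⟨⟨⟨h1, by omega⟩, (orb_V n a σ i).2.1, (hle i).1⟩, ⟨h3, h4⟩, h5, h6⟩
    have hninj : ¬ Function.Injective g := fun h => Set.infinite_range_of_injective h hfin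
    rw [Function.Injective] at hninj
    push Not at hninj
    obtain ⟨i, k, hgik, hik⟩ := hninj
    simp only [hg, Prod.mk.injEq] at hgik
    obtain ⟨⟨h1, h2⟩, h3, h4⟩ := hgik
    obtain ⟨z, hz⟩ : (2 * n + 1 : ℤ) ∣ (orb n a σ k).1.1 - (orb n a σ i).1.1 :=
      (show (orb n a σ i).1.1 ≡ (orb n a σ k).1.1 [ZMOD (2 * n + 1)] from h1).dvd
    refine (t_INJ n a σ hn hp i k z).1 hik ?_
    ext
    · simp only [sh]; omega
    · simp only [sh]; omega
    · simp only [sh]; omega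
    · simp only [sh]; omega
  have hH : ∃ X : ℤ, ∃ i : ℕ, Hit n a b σ i X := by
    classical
    obtain ⟨q, hq⟩ := Nat.find_spec hex
    refine ⟨q - 2 * n, Nat.find hex, ?_, ?_⟩
    · rw [hq]
      congr 1
      ring
    · intro k hk q' hq'
      exact Nat.find_min hex hk ⟨q', hq'⟩
  unfold dsp
  rw [dif_pos hH]
  exact Classical.choose_spec hH

end Pool.Agent.Y932.KW
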